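import Pool.Agent.H39.Newt2.Stmts

/-! # NEWTON2, module LPZ: Laurent polynomials are determined by their values -/

set_option autoImplicit false

namespace Pool.Newt2

open Polynomial

theorem sLpz : SLpz := by
  intro p hp
  obtain ⟨n, f', hf⟩ := LaurentPolynomial.exists_T_pow p
  have key : ∀ r : ℝ, 1 < r → (f'.map (Int.castRingHom ℝ)).eval r = 0 := by
    intro r hr
    have hr0 : r ≠ 0 := by positivity
    have h1 := hp (Units.mk0 r hr0) (by simpa using hr)
    have h2 := congrArg (ev (Units.mk0 r hr0)) hf
    rw [map_mul, h1, zero_mul] at h2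
    unfold ev at h2
    rw [LaurentPolynomial.eval₂_toLaurent] at h2
    rw [Polynomial.eval_map]
    simpa using h2
  have h3 : f'.map (Int.castRingHom ℝ) = 0 := by
    refine Polynomial.eq_zero_of_infinite_isRoot _ ?_
    refine (Set.Ioi_infinite (1 : ℝ)).mono ?_
    intro r hr
    exact key r hr
  have h4 : f' = 0 := by
    refine Polynomial.map_injective (Int.castRingHom ℝ) Int.cast_injective ?_
    rw [h3, Polynomial.map_zero]
  rw [h4, map_zero] at hf
  have h5 : p * LaurentPolynomial.T n * LaurentPolynomial.T (-(n : ℤ)) = p := by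
    rw [mul_assoc, ← LaurentPolynomial.T_add, add_neg_cancel, LaurentPolynomial.T_zero, mul_one]
  rw [← h5, ← hf, zero_mul]

end Pool.Newt2
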